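import Mathlib
import Pool.Agent.Q80.MLe

/-!
# `|E_{2α,1}(-t)|² + t |E_{2α,1+α}(-t)|²` is completely monotone for `0 < α ≤ 1/2`
-/

open Filter Topology Set
open scoped ContDiff

namespace Pool.Agent.Results.MP_38d52f_an.CompletelyMonotone

/-- the two-parameter Mittag-Leffler function `E_{a,b}(z) = ∑ z^k / Γ(ak+b)` -/
noncomputable def mittagLeffler (a b : ℝ) (z : ℂ) : ℂ :=
  ∑' k : ℕ, z ^ k / (Real.Gamma (a * k + b) : ℂ)

/-- `f_α(t) = |E_{2α,1}(-t)|² + t |E_{2α,1+α}(-t)|²` -/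
noncomputable def f (α t : ℝ) : ℝ :=
  ‖mittagLeffler (2 * α) 1 (-(t : ℂ))‖ ^ 2 + t * ‖mittagLeffler (2 * α) (1 + α) (-(t : ℂ))‖ ^ 2

/-- complete monotonicity on `(0, ∞)` -/
def IsCompletelyMonotone (g : ℝ → ℝ) : Prop :=
  ContDiffOn ℝ ∞ g (Ioi 0) ∧ ∀ (n : ℕ) (t : ℝ), 0 < t → 0 ≤ (-1 : ℝ) ^ n * iteratedDeriv n g t

/-- log-convexity of a positive function on `(0, ∞)` -/
def IsLogConvex (g : ℝ → ℝ) : Prop :=
  (∀ t, 0 < t → 0 < g t) ∧ ConvexOn ℝ (Ioi 0) (fun t => Real.log (g t))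

lemma ml_real (a b t : ℝ) : ‖mittagLeffler a b (-(t : ℂ))‖ ^ 2 =
    (∑' k : ℕ, 1 / Real.Gamma (a * k + b) * (-t) ^ k) ^ 2 := by
  have : mittagLeffler a b (-(t : ℂ)) =
      ((∑' k : ℕ, 1 / Real.Gamma (a * k + b) * (-t) ^ k : ℝ) : ℂ) := by
    unfold mittagLeffler
    rw [Complex.ofReal_tsum]
    apply tsum_congr
    intro k
    push_cast
    ring
  rw [this, Complex.norm_real, Real.norm_eq_abs, sq_abs]

lemma f_eq {α : ℝ} (hα : 0 < α) : f α = Q80.ML.S (Q80.ML.cI (2 * α)) := by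
  funext t
  rw [Q80.ML.S_cI (by positivity : 0 < 2 * α)]
  unfold f
  rw [ml_real, ml_real]
  have h1 : ∀ k : ℕ, 1 / Real.Gamma (2 * α * k + 1) = Q80.ML.al (2 * α) k := by
    intro k
    unfold Q80.ML.al
    congr 2; ring
  have h2 : ∀ k : ℕ, 1 / Real.Gamma (2 * α * k + (1 + α)) = Q80.ML.be (2 * α) k := by
    intro k
    unfold Q80.ML.be
    congr 2; ring
  simp only [h1, h2]

/-- For every `α ∈ (0, 1/2]` the function `f_α` is completely monotone on `(0, ∞)` (Q1), and it is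
positive and log-convex there (Q2). -/
theorem result : ∀ α : ℝ, 0 < α → α ≤ 1 / 2 → IsCompletelyMonotone (f α) ∧ IsLogConvex (f α) := by
  intro α h0 h1
  have ha0 : 0 < 2 * α := by positivity
  have ha1 : 2 * α ≤ 1 := by linarith
  have hg := Q80.ML.gr_cI ha0
  rw [f_eq h0]
  refine ⟨⟨(Q80.ML.S_contDiff hg).contDiffOn, fun n t _ => ?_⟩, fun t _ => Q80.ML.S_pos ha0 ha1 t,
    Q80.ML.S_logConvex ha0 ha1⟩
  rw [Q80.ML.iteratedDeriv_S hg]
  simp only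
  rw [← mul_assoc, ← mul_pow]
  norm_num
  exact Q80.ML.S_nonneg ha0 ha1 n t

end Pool.Agent.Results.MP_38d52f_an.CompletelyMonotone
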